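import Pool.Agent.F5H.StmtsA
import Pool.Agent.F5S.Stmts

set_option autoImplicit false

/-!
# Squad F5H, row A_KAF: product of three tents
-/

open MeasureTheory Filter Topology

namespace Pool.Agent.F5H.H60

open Pool.Agent.BTL Pool.Agent.F5S Pool.Agent.F5H

theorem kaf (hT : TNFStmt) (hK : KKFStmt) : KAFStmt := by
  intro e he p
  obtain ⟨h01, heven, hcont, hzero, -, -, -, -⟩ := hT
  have hlt : ∀ u, tn u ≠ 0 → |u| < 1 := fun u hu => by
    by_contra h
    exact hu (hzero u (not_lt.1 h))
  have hlt' : ∀ u, tn (u / e) ≠ 0 → |u| < e := fun u hu => by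
    have h := hlt _ hu
    rwa [abs_div, abs_of_pos he, div_lt_one he] at h
  refine ⟨?_, ?_, ?_, ?_⟩
  · intro A s x
    unfold KA
    have a := h01 ((qf A x.1 - (p.1 + p.2) - s) / e)
    have b := h01 ((qf A x.2.1 - p.2 - s) / e)
    have c := h01 ((qf A x.2.2 - s) / e)
    exact ⟨mul_nonneg a.1 (mul_nonneg b.1 c.1),
      mul_le_one₀ a.2 (mul_nonneg b.1 c.1) (mul_le_one₀ b.2 c.1 c.2)⟩
  · unfold KA
    have q1 : Continuous (fun z : (ℝ × ℝ × ℝ) × ℝ × R6 => (qf z.1 z.2.2.1 - (p.1 + p.2) - z.2.1) / e) := by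
      unfold qf
      fun_prop
    have q2 : Continuous (fun z : (ℝ × ℝ × ℝ) × ℝ × R6 => (qf z.1 z.2.2.2.1 - p.2 - z.2.1) / e) := by
      unfold qf
      fun_prop
    have q3 : Continuous (fun z : (ℝ × ℝ × ℝ) × ℝ × R6 => (qf z.1 z.2.2.2.2 - z.2.1) / e) := by
      unfold qf
      fun_prop
    exact (hcont.comp q1).mul ((hcont.comp q2).mul (hcont.comp q3))
  · intro A s x h
    unfold KA at h
    have h1 := left_ne_zero_of_mul h
    have h23 := right_ne_zero_of_mul h
    exact ⟨hlt' _ h1, hlt' _ (left_ne_zero_of_mul h23), hlt' _ (right_ne_zero_of_mul h23)⟩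
  · intro A x
    have hint := (hK e he).2.2.2 (difr A x - p)
    have key : (fun s => KA e p A s x) = fun s =>
        (fun s' => tn (((difr A x - p).1 + (difr A x - p).2 - s') / e) *
          (tn (((difr A x - p).2 - s') / e) * tn (s' / e))) (s - qf A x.2.2) := by
      funext s
      unfold KA
      have e1 : (difr A x - p).1 + (difr A x - p).2 - (s - qf A x.2.2) =
          qf A x.1 - (p.1 + p.2) - s := by
        simp only [difr, Prod.fst_sub, Prod.snd_sub]
        ring
      have e2 : (difr A x - p).2 - (s - qf A x.2.2) = qf A x.2.1 - p.2 - s := by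
        simp only [difr, Prod.snd_sub]
        ring
      have e3 : tn ((s - qf A x.2.2) / e) = tn ((qf A x.2.2 - s) / e) := by
        rw [← heven]
        congr 1
        ring
      simp only [e1, e2, e3]
    rw [key]
    refine ⟨hint.comp_sub_right (qf A x.2.2), ?_⟩
    rw [integral_sub_right_eq_self (fun s' => tn (((difr A x - p).1 + (difr A x - p).2 - s') / e) *
          (tn (((difr A x - p).2 - s') / e) * tn (s' / e))) (qf A x.2.2)]
    rfl

end Pool.Agent.F5H.H60
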