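import Pool.Agent.F5H.StmtsA
import Pool.Agent.F5S.Stmts

set_option autoImplicit false

/-!
# Squad F5H, row A_GGF: one triple in a window
-/

open MeasureTheory Filter Topology

namespace Pool.Agent.F5H.H60

open Pool.Agent.BTL Pool.Agent.F5S Pool.Agent.F5H

theorem ggf (hT : TNFStmt) (hKA : KAFStmt) (hPR : PRFStmt) : GGFStmt := by
  intro R e hR he p
  obtain ⟨h01, heven, hcont, hzero, -, -, hint, -⟩ := hT
  obtain ⟨k01, kcont, ksupp, kint⟩ := hKA e he p
  obtain ⟨-, -, -, hPR4⟩ := hPR R hR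
  have hltR : ∀ u, tn (u / R) ≠ 0 → |u| < R := fun u hu => by
    by_contra h
    refine hu (hzero _ ?_)
    rw [abs_div, abs_of_pos hR, le_div_iff₀ hR, one_mul]
    exact not_lt.1 h
  have kcont' : ∀ (A : ℝ × ℝ × ℝ) (x : R6), Continuous (fun s => KA e p A s x) := fun A x =>
    kcont.comp (by fun_prop : Continuous fun s : ℝ => ((A, s, x) : (ℝ × ℝ × ℝ) × ℝ × R6))
  have kle : ∀ A s x, KA e p A s x ≤ tn ((s - qf A x.2.2) / e) := by
    intro A s x
    unfold KA
    have a := h01 ((qf A x.1 - (p.1 + p.2) - s) / e)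
    have b := h01 ((qf A x.2.1 - p.2 - s) / e)
    have c := h01 ((qf A x.2.2 - s) / e)
    have e3 : tn ((s - qf A x.2.2) / e) = tn ((qf A x.2.2 - s) / e) := by
      rw [← heven]
      congr 1
      ring
    rw [e3]
    calc _ ≤ 1 * (1 * tn ((qf A x.2.2 - s) / e)) :=
        mul_le_mul a.2 (mul_le_mul_of_nonneg_right b.2 c.1) (mul_nonneg b.1 c.1) zero_le_one
      _ = _ := by ring
  have fcont : Continuous (fun z : (((ℝ × ℝ × ℝ) × ℝ × R6) × ℝ) =>
      tn ((z.2 - z.1.2.1) / R) * KA e p z.1.1 z.2 z.1.2.2) := by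
    refine (hcont.comp (by fun_prop)).mul ?_
    exact kcont.comp (by fun_prop : Continuous fun z : (((ℝ × ℝ × ℝ) × ℝ × R6) × ℝ) =>
      ((z.1.1, z.2, z.1.2.2) : (ℝ × ℝ × ℝ) × ℝ × R6))
  have f2 : ∀ (A : ℝ × ℝ × ℝ) (x : R6), Continuous (fun z : ℝ × ℝ =>
      tn ((z.2 - z.1) / R) * KA e p A z.2 x) := fun A x =>
    fcont.comp (by fun_prop : Continuous fun z : ℝ × ℝ =>
      (((A, z.1, x), z.2) : (((ℝ × ℝ × ℝ) × ℝ × R6) × ℝ)))
  refine ⟨?_, ?_, ?_, ?_, ?_⟩
  · exact (StronglyMeasurable.integral_prod_right (ν := (volume : Measure ℝ))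
      (f := fun (z : (ℝ × ℝ × ℝ) × ℝ × R6) (s : ℝ) =>
        tn ((s - z.2.1) / R) * KA e p z.1 s z.2.2) fcont.stronglyMeasurable).measurable
  · intro A σ x
    unfold gg
    refine ⟨integral_nonneg fun s => mul_nonneg (h01 _).1 (k01 _ _ _).1, ?_⟩
    have h1 : Integrable (fun s => tn ((s - qf A x.2.2) / e)) :=
      ((hint e he).1).comp_sub_right (qf A x.2.2)
    have h2 : ∫ s, tn ((s - qf A x.2.2) / e) = e := by
      rw [integral_sub_right_eq_self (fun s => tn (s / e)) (qf A x.2.2)]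
      exact (hint e he).2
    calc _ ≤ ∫ s, tn ((s - qf A x.2.2) / e) := by
          refine integral_mono_of_nonneg (ae_of_all _ fun s =>
            mul_nonneg (h01 _).1 (k01 _ _ _).1) h1 (ae_of_all _ fun s => ?_)
          calc tn ((s - σ) / R) * KA e p A s x ≤ 1 * KA e p A s x :=
              mul_le_mul_of_nonneg_right (h01 _).2 (k01 _ _ _).1
            _ ≤ _ := by rw [one_mul]; exact kle A s x
      _ = e := h2
  · intro A σ x h
    have : ∃ s, tn ((s - σ) / R) * KA e p A s x ≠ 0 := by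
      by_contra hn
      push Not at hn
      apply h
      unfold gg
      simp only [hn, integral_zero]
    obtain ⟨s, hs⟩ := this
    have hs1 := hltR _ (left_ne_zero_of_mul hs)
    obtain ⟨a, b, c⟩ := ksupp A s x (right_ne_zero_of_mul hs)
    rw [abs_lt] at hs1 a b c
    refine ⟨?_, ?_, ?_⟩ <;> rw [abs_le] <;> constructor <;> linarith [hs1.1, hs1.2, a.1, a.2, b.1, b.2, c.1, c.2]
  · intro A x
    have hcs : HasCompactSupport (fun z : ℝ × ℝ => tn ((z.2 - z.1) / R) * KA e p A z.2 x) := by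
      refine HasCompactSupport.intro (K := Set.Icc (qf A x.2.2 - e - R) (qf A x.2.2 + e + R) ×ˢ
        Set.Icc (qf A x.2.2 - e) (qf A x.2.2 + e)) (isCompact_Icc.prod isCompact_Icc) ?_
      intro z hz
      by_contra hn
      apply hz
      have hs1 := hltR _ (left_ne_zero_of_mul hn)
      obtain ⟨-, -, c⟩ := ksupp A _ x (right_ne_zero_of_mul hn)
      rw [abs_lt] at hs1 c
      refine ⟨⟨?_, ?_⟩, ⟨?_, ?_⟩⟩ <;> linarith [hs1.1, hs1.2, c.1, c.2]
    have hF : Integrable (fun z : ℝ × ℝ => tn ((z.2 - z.1) / R) * KA e p A z.2 x)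
        ((volume : Measure ℝ).prod volume) :=
      (f2 A x).integrable_of_hasCompactSupport hcs
    refine ⟨hF.integral_prod_left, ?_⟩
    have hsw := integral_integral_swap (f := fun (σ s : ℝ) => tn ((s - σ) / R) * KA e p A s x) hF
    unfold gg
    rw [hsw]
    have hin : ∀ s, ∫ σ, tn ((s - σ) / R) * KA e p A s x = R * KA e p A s x := by
      intro s
      rw [integral_mul_const, integral_sub_left_eq_self (fun u => tn (u / R)) volume s, (hint R hR).2]
    simp only [hin]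
    rw [integral_const_mul, (kint A x).2]
  · intro A x y
    have hcs : HasCompactSupport (fun z : ℝ × (ℝ × ℝ) =>
        (tn ((z.2.1 - z.1) / R) * KA e p A z.2.1 x) * (tn ((z.2.2 - z.1) / R) * KA e p A z.2.2 y)) := by
      refine HasCompactSupport.intro (K := Set.Icc (qf A x.2.2 - e - R) (qf A x.2.2 + e + R) ×ˢ
        (Set.Icc (qf A x.2.2 - e) (qf A x.2.2 + e) ×ˢ Set.Icc (qf A y.2.2 - e) (qf A y.2.2 + e)))
        (isCompact_Icc.prod (isCompact_Icc.prod isCompact_Icc)) ?_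
      intro z hz
      by_contra hn
      apply hz
      have hx := left_ne_zero_of_mul hn
      have hy := right_ne_zero_of_mul hn
      have hs1 := hltR _ (left_ne_zero_of_mul hx)
      obtain ⟨-, -, c⟩ := ksupp A _ x (right_ne_zero_of_mul hx)
      obtain ⟨-, -, d⟩ := ksupp A _ y (right_ne_zero_of_mul hy)
      rw [abs_lt] at hs1 c d
      refine ⟨⟨?_, ?_⟩, ⟨?_, ?_⟩, ⟨?_, ?_⟩⟩ <;> linarith [hs1.1, hs1.2, c.1, c.2, d.1, d.2]
    have hc : Continuous (fun z : ℝ × (ℝ × ℝ) =>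
        (tn ((z.2.1 - z.1) / R) * KA e p A z.2.1 x) * (tn ((z.2.2 - z.1) / R) * KA e p A z.2.2 y)) :=
      ((f2 A x).comp (by fun_prop : Continuous fun z : ℝ × (ℝ × ℝ) => ((z.1, z.2.1) : ℝ × ℝ))).mul
        ((f2 A y).comp (by fun_prop : Continuous fun z : ℝ × (ℝ × ℝ) => ((z.1, z.2.2) : ℝ × ℝ)))
    have hF : Integrable (fun z : ℝ × (ℝ × ℝ) =>
        (tn ((z.2.1 - z.1) / R) * KA e p A z.2.1 x) * (tn ((z.2.2 - z.1) / R) * KA e p A z.2.2 y))
        ((volume : Measure ℝ).prod (volume : Measure (ℝ × ℝ))) :=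
      hc.integrable_of_hasCompactSupport hcs
    have hmul : ∀ σ, gg R e p A σ x * gg R e p A σ y = ∫ z : ℝ × ℝ,
        (tn ((z.1 - σ) / R) * KA e p A z.1 x) * (tn ((z.2 - σ) / R) * KA e p A z.2 y) := by
      intro σ
      unfold gg
      exact (integral_prod_mul (μ := (volume : Measure ℝ)) (ν := (volume : Measure ℝ))
        (fun s => tn ((s - σ) / R) * KA e p A s x) (fun s => tn ((s - σ) / R) * KA e p A s y)).symm
    simp only [hmul]
    have hsw := integral_integral_swap (f := fun (σ : ℝ) (z : ℝ × ℝ) =>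
      (tn ((z.1 - σ) / R) * KA e p A z.1 x) * (tn ((z.2 - σ) / R) * KA e p A z.2 y)) hF
    rw [hsw]
    unfold RV
    rw [← integral_const_mul]
    refine integral_congr_ae (ae_of_all _ fun z => ?_)
    have e1 : ∀ σ, (tn ((z.1 - σ) / R) * KA e p A z.1 x) * (tn ((z.2 - σ) / R) * KA e p A z.2 y) =
        (tn ((z.1 - σ) / R) * tn ((z.2 - σ) / R)) * (KA e p A z.1 x * KA e p A z.2 y) := fun σ => by
      ring
    simp only [e1]
    rw [integral_mul_const, (hPR4 z.1 z.2).2]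
    ring

end Pool.Agent.F5H.H60
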